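import Pool.Agent.ISB.StmtsC

/-! Squad ISB, row TRV (helper80). -/

set_option autoImplicit false

namespace Pool.Agent.ISB.H80

open scoped Classical commutatorElement

/-- **Row TRV** -/
theorem trv (h1 : StcStmt) : TrvStmt := by
  intro G Ω _ _ _ r P κ ω hr hodd hP hrot t htr hcom hfix x
  have hN := hrot.nrm
  have key : ∀ i : ℕ, (P.lowerCentralSeries i).Normal ∧ P.lowerCentralSeries i ≤ P ∧
      ∀ x : Ω, ∃ m ∈ P.lowerCentralSeries i, t • x = m • x := by
    intro i
    induction i with
    | zero =>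
      refine ⟨by rw [Subgroup.lowerCentralSeries_zero]; exact hN, le_of_eq rfl, fun x => ?_⟩
      obtain ⟨k, -, g, hg, hx⟩ := hrot.cov x
      refine ⟨(t * g * t⁻¹) * g⁻¹, ?_, ?_⟩
      · rw [Subgroup.lowerCentralSeries_zero]
        exact P.mul_mem (hN.conj_mem g hg t) (P.inv_mem hg)
      · have h2 : t⁻¹ • ω k = ω k := by
          rw [inv_smul_eq_iff, hfix]
        rw [hx]
        simp only [mul_smul, inv_smul_smul, h2]
    | succ i ih =>
      obtain ⟨hn, hle, hx⟩ := ih
      refine ⟨?_, ?_, ?_⟩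
      · rw [Subgroup.lowerCentralSeries_succ]
        exact Subgroup.commutator_normal _ _
      · rw [Subgroup.lowerCentralSeries_succ]
        exact Subgroup.commutator_le_right _ _
      · rw [Subgroup.lowerCentralSeries_succ]
        exact h1 G Ω r P κ ω hr hodd hP hrot t htr hcom hfix _ hn hle hx
  haveI : Fact (Nat.Prime 2) := ⟨Nat.prime_two⟩
  have hnil : Group.IsNilpotent P := hP.isNilpotent
  obtain ⟨n, hn⟩ := (Subgroup.isNilpotent_iff_lowerCentralSeries P).mp hnil
  obtain ⟨m, hm, hx⟩ := (key n).2.2 x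
  rw [hn, Subgroup.mem_bot] at hm
  rw [hx, hm, one_smul]

end Pool.Agent.ISB.H80
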